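import Pool.Agent.Q302.HQ.Cube

/-!
MP_08a145_lc, Q1 (yes): the homeomorphism group of the Hilbert cube is the union of disjoint sets
`A`, `M` with `A` Haar null and `M` meagre.
-/

set_option autoImplicit false

open MeasureTheory Topology

namespace Pool.Agent.Results.MP_08a145_lc.HilbertCube

/-- The Hilbert cube. -/
abbrev Q : Type := ℕ → unitInterval

/-- The homeomorphisms of a compact Hausdorff space (the bijective continuous self-maps), with the
compact-open topology; the group operation is composition. -/
def Homeos (X : Type) [TopologicalSpace X] : Set C(X, X) := {f | Function.Bijective f}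

/-- `N` is Haar null in the group `G` of homeomorphisms of `X`: it lies in a Borel set all of
whose two-sided translates are null for one Borel probability measure. -/
def HaarNull {X : Type} [TopologicalSpace X] {G : Set C(X, X)} (N : Set G) : Prop :=
  ∃ B : Set G, N ⊆ B ∧ @MeasurableSet G (borel G) B ∧
    ∃ μ : @Measure G (borel G), @IsProbabilityMeasure G (borel G) μ ∧
      ∀ g h : G, μ {x : G | ∃ b ∈ B, x.1 = g.1.comp (b.1.comp h.1)} = 0

/-- Q1, positive answer. -/
theorem result :
    ∃ A M : Set (Homeos Q), A ∪ M = Set.univ ∧ Disjoint A M ∧ IsMeagre M ∧ HaarNull A :=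
  Pool.Agent.Q302.HQ.decompose Pool.Agent.Q302.HQ.γ Pool.Agent.Q302.HQ.continuous_γ
    Pool.Agent.Q302.HQ.γ_zero Pool.Agent.Q302.HQ.γ_one

end Pool.Agent.Results.MP_08a145_lc.HilbertCube
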